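import Mathlib

open Matrix

namespace Pool.Agent.Results.MP_b3b2bb_nt.EigenvectorApproximants

/-- The numerators with index shifted by one: `P a x (n+1)` is the `P_n` of the problem, so
`P a x 0 = P_{-1} = 1`, `P a x 1 = P_0 = 1` and `P_{n} = P_{n-1} + a x^{n} P_{n-2}` for `n ≥ 1`. -/
def P (a x : ℂ) : ℕ → ℂ
  | 0 => 1
  | 1 => 1
  | (n + 2) => P a x (n + 1) + a * x ^ (n + 1) * P a x n

/-- The denominators with index shifted by one: `Q a x (n+1)` is the `Q_n` of the problem, so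
`Q a x 0 = Q_{-1} = 1`, `Q a x 1 = Q_0 = 1 + a` and `Q_{n} = Q_{n-1} + a x^{n} Q_{n-2}`
for `n ≥ 1`. -/
def Q (a x : ℂ) : ℕ → ℂ
  | 0 => 1
  | 1 => 1 + a
  | (n + 2) => Q a x (n + 1) + a * x ^ (n + 1) * Q a x n

/-- The matrix `A` (entries `a x^{m-1} P_{m-3}`, `P_{m-2}`, `a x^{m-1} Q_{m-3}`, `Q_{m-2}`). -/
def A (a x : ℂ) (m : ℕ) : Matrix (Fin 2) (Fin 2) ℂ :=
  !![a * x ^ (m - 1) * P a x (m - 2), P a x (m - 1);
     a * x ^ (m - 1) * Q a x (m - 2), Q a x (m - 1)]

/-! ### Products of transfer matrices -/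

section Ring

variable {S : Type*} [CommRing S]

/-- transfer matrix -/
def N (c : S) : Matrix (Fin 2) (Fin 2) S := !![1, 1; c, 0]

/-- product over a list -/
def Gm (L : List S) : Matrix (Fin 2) (Fin 2) S := (L.map N).prod

@[simp] theorem Gm_nil : Gm ([] : List S) = 1 := rfl

@[simp] theorem Gm_cons (c : S) (L : List S) : Gm (c :: L) = N c * Gm L := by
  simp [Gm]

theorem Gm_append (L L' : List S) : Gm (L ++ L') = Gm L * Gm L' := by
  simp [Gm]

theorem Gm_map {T : Type*} [CommRing T] (φ : S →+* T) (L : List S) :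
    Gm (L.map φ) = (Gm L).map φ := by
  induction L with
  | nil => ext i j; by_cases h : i = j <;> simp [h, Matrix.one_apply]
  | cons c L ih =>
    rw [List.map_cons, Gm_cons, Gm_cons, ih, Matrix.map_mul]
    congr 1
    ext i j
    fin_cases i <;> fin_cases j <;> simp [N]

theorem N_det (c : S) : (N c).det = -c := by
  simp [N, Matrix.det_fin_two_of]

theorem transpose_N (c : S) : (N c)ᵀ * N (1 : S) = N (1 : S) * N c := by
  ext i j
  fin_cases i <;> fin_cases j <;> simp [N, Matrix.mul_apply, Fin.sum_univ_two]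

theorem Gm_transpose (L : List S) : (Gm L)ᵀ * N (1 : S) = N (1 : S) * Gm L.reverse := by
  induction L with
  | nil => simp
  | cons c L ih =>
    rw [Gm_cons, Matrix.transpose_mul, Matrix.mul_assoc, transpose_N, ← Matrix.mul_assoc, ih,
      Matrix.mul_assoc, List.reverse_cons, Gm_append]
    simp

theorem Gm_transpose_one (L : List S) : (Gm ((1 : S) :: L))ᵀ = Gm ((1 : S) :: L.reverse) := by
  rw [Gm_cons, Gm_cons, Matrix.transpose_mul, ← Gm_transpose]
  congr 1
  ext i j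
  fin_cases i <;> fin_cases j <;> simp [N]

/-- the list `x^i, i = k, …, k+n-1`, multiplied by `a` -/
def pows (a x : S) (k n : ℕ) : List S := (List.range n).map (fun i => a * x ^ (k + i))

@[simp] theorem pows_zero (a x : S) (k : ℕ) : pows a x k 0 = [] := rfl

theorem pows_succ (a x : S) (k n : ℕ) : pows a x k (n + 1) = pows a x k n ++ [a * x ^ (k + n)] := by
  simp [pows, List.range_succ]

theorem pows_succ' (a x : S) (k n : ℕ) :
    pows a x k (n + 1) = a * x ^ k :: pows a x (k + 1) n := by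
  simp only [pows, List.range_succ_eq_map, List.map_cons, List.map_map, Nat.add_zero]
  congr 1
  apply List.map_congr_left
  intro i _
  simp only [Function.comp_apply, Nat.succ_eq_add_one]
  congr 2; ring

theorem pows_add (a x : S) (k n n' : ℕ) :
    pows a x k (n + n') = pows a x k n ++ pows a x (k + n) n' := by
  induction n' with
  | zero => simp
  | succ n' ih => rw [← Nat.add_assoc, pows_succ, ih, pows_succ, List.append_assoc, Nat.add_assoc]

theorem pows_map {T : Type*} [CommRing T] (φ : S →+* T) (a x : S) (k n : ℕ) :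
    (pows a x k n).map φ = pows (φ a) (φ x) k n := by
  simp [pows]

theorem pows_congr (a b x : S) (k k' n : ℕ) (h : a * x ^ k = b * x ^ k') :
    pows a x k n = pows b x k' n := by
  unfold pows
  apply List.map_congr_left
  intro i _
  rw [pow_add, pow_add, ← mul_assoc, ← mul_assoc, h]

theorem trace_cyc (c : S) (L : List S) : (Gm (c :: L)).trace = (Gm (L ++ [c])).trace := by
  rw [Gm_cons, Gm_append, Matrix.trace_mul_comm]
  simp

theorem det_Gm_pows (x : S) (n : ℕ) :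
    (Gm (pows 1 x 0 n)).det = (-1) ^ n * x ^ (n * (n - 1) / 2) := by
  induction n with
  | zero => simp
  | succ n ih =>
    rw [pows_succ, Gm_append, Matrix.det_mul, ih]
    have h : (n + 1) * (n + 1 - 1) / 2 = n * (n - 1) / 2 + n := by
      have h1 := Finset.sum_range_succ (fun i => i) n
      rw [Finset.sum_range_id, Finset.sum_range_id] at h1
      exact h1
    rw [h]
    simp only [Gm_cons, Gm_nil, mul_one, N_det, one_mul, Nat.zero_add]
    ring

/-- Powers of `2 × 2` matrices in a ring with `5 = 0`. -/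
theorem pow_five_lower (B : Matrix (Fin 2) (Fin 2) S) (h5 : (5 : S) = 0) (ht : (B ^ 5).trace = 1)
    (hd : (B ^ 5).det = -1) : ((B ^ 5) 1 0) ^ 3 = 0 := by
  obtain ⟨p, q, s, u, rfl⟩ : ∃ p q s u, B = !![p, q; s, u] :=
    ⟨B 0 0, B 0 1, B 1 0, B 1 1, by ext i j; fin_cases i <;> fin_cases j <;> rfl⟩
  have hpow : !![p, q; s, u] ^ 5 = !![p, q; s, u] * !![p, q; s, u] * !![p, q; s, u] *
      !![p, q; s, u] * !![p, q; s, u] := by
    simp only [pow_succ, pow_zero, one_mul]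
  have ht5 : (p + u) ^ 5 = 1 := by
    rw [hpow] at ht
    simp only [Matrix.mul_fin_two, Matrix.trace_fin_two_of] at ht
    linear_combination ht + ((p + u) ^ 3 * (p * u - q * s) - (p + u) * (p * u - q * s) ^ 2) * h5
  have hd5 : (p * u - q * s) ^ 5 = -1 := by
    rw [Matrix.det_pow, Matrix.det_fin_two_of] at hd
    exact hd
  have hlow : (!![p, q; s, u] ^ 5) 1 0 = ((p + u) ^ 2 + (p * u - q * s)) ^ 2 * s := by
    rw [hpow]
    simp only [Matrix.mul_fin_two, Matrix.of_apply, Matrix.cons_val', Matrix.cons_val_zero,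
      Matrix.cons_val_one, Matrix.cons_val_fin_one]
    linear_combination (-(p + u) ^ 2 * (p * u - q * s) * s) * h5
  have hnil : ((p + u) ^ 2 + (p * u - q * s)) ^ 5 = 0 := by
    set t := p + u
    set d := p * u - q * s
    have : (t ^ 2 + d) ^ 5 = (t ^ 5) ^ 2 + d ^ 5 + 5 * (t ^ 8 * d + 2 * t ^ 6 * d ^ 2
        + 2 * t ^ 4 * d ^ 3 + t ^ 2 * d ^ 4) := by ring
    rw [this, ht5, hd5, h5]; ring
  rw [hlow]
  have : (((p + u) ^ 2 + (p * u - q * s)) ^ 2 * s) ^ 3
      = ((p + u) ^ 2 + (p * u - q * s)) ^ 5 * (((p + u) ^ 2 + (p * u - q * s)) * s ^ 3) := by ring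
  rw [this, hnil, zero_mul]

open Polynomial in
theorem natDegree_bound (x : S) (i : Fin 2) (n : ℕ) :
    (Gm (pows (X : S[X]) (C x) 0 n) i 0).natDegree ≤ (n + 1) / 2 ∧
      (Gm (pows (X : S[X]) (C x) 0 n) i 1).natDegree ≤ n / 2 := by
  induction n with
  | zero => fin_cases i <;> simp
  | succ n ih =>
    have e0 : Gm (pows (X : S[X]) (C x) 0 (n + 1)) i 0
        = Gm (pows (X : S[X]) (C x) 0 n) i 0
          + Gm (pows (X : S[X]) (C x) 0 n) i 1 * (X * C (x ^ n)) := by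
      rw [pows_succ, Gm_append, Gm_cons, Gm_nil, mul_one, Matrix.mul_apply, Fin.sum_univ_two]
      simp [N]
    have e1 : Gm (pows (X : S[X]) (C x) 0 (n + 1)) i 1 = Gm (pows (X : S[X]) (C x) 0 n) i 0 := by
      rw [pows_succ, Gm_append, Gm_cons, Gm_nil, mul_one, Matrix.mul_apply, Fin.sum_univ_two]
      simp [N]
    rw [e0, e1]
    refine ⟨?_, by simpa using ih.1⟩
    refine (Polynomial.natDegree_add_le _ _).trans (max_le (by omega) ?_)
    refine (Polynomial.natDegree_mul_le).trans ?_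
    have h1 : (X * C (x ^ n) : S[X]).natDegree ≤ 1 := by
      refine (Polynomial.natDegree_mul_le).trans ?_
      have := Polynomial.natDegree_X_le (R := S)
      simp only [Polynomial.natDegree_C]; omega
    omega

theorem Gm_zero_pows (x : S) (n : ℕ) : Gm (pows (0 : S) x 0 (n + 1)) = N 0 := by
  induction n with
  | zero => simp [pows_succ]
  | succ n ih =>
    rw [pows_succ, Gm_append, ih, Gm_cons, Gm_nil, mul_one, zero_mul]
    ext i j
    fin_cases i <;> fin_cases j <;> simp [N, Matrix.mul_apply, Fin.sum_univ_two]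

open Polynomial in
theorem trace_eq_one [IsDomain S] {x : S} {m : ℕ} (hx : IsPrimitiveRoot x m) (hm : 2 ≤ m) :
    (Gm (pows (1 : S) x 0 m)).trace = 1 := by
  set τ : S[X] := (Gm (pows (X : S[X]) (C x) 0 m)).trace with hτ
  have hdeg : τ.natDegree < m := by
    rw [hτ, Matrix.trace_fin_two]
    refine lt_of_le_of_lt (Polynomial.natDegree_add_le _ _) (max_lt ?_ ?_)
    · have := (natDegree_bound x 0 m).1; omega
    · have := (natDegree_bound x 1 m).2; omega
  have hcyc : (Gm (pows (X : S[X]) (C x) 1 m)).trace = τ := by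
    obtain ⟨m', rfl⟩ : ∃ m', m = m' + 1 := ⟨m - 1, by omega⟩
    have hL : pows (X : S[X]) (C x) 0 (m' + 1) = (X * C x ^ 0) :: pows (X : S[X]) (C x) 1 m' :=
      pows_succ' _ _ _ _
    have hR : pows (X : S[X]) (C x) 1 (m' + 1)
        = pows (X : S[X]) (C x) 1 m' ++ [X * C x ^ (1 + m')] := pows_succ _ _ _ _
    have hE : (X * C x ^ (1 + m') : S[X]) = X * C x ^ 0 := by
      rw [pow_zero, mul_one, ← C_pow, Nat.add_comm 1 m', hx.pow_eq_one, C_1, mul_one]
    rw [hτ, hL, trace_cyc, hR, hE]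
  have hcomp : τ.comp (C x * X) = τ := by
    have h1 : τ.comp (C x * X) = (compRingHom (C x * X)) τ := rfl
    rw [h1, hτ]
    have h2 : (compRingHom (C x * X)) (Gm (pows (X : S[X]) (C x) 0 m)).trace
        = ((Gm (pows (X : S[X]) (C x) 0 m)).map (compRingHom (C x * X))).trace := by
      simp [Matrix.trace_fin_two]
    rw [h2, ← Gm_map, pows_map]
    have h3 : pows ((compRingHom (C x * X)) (X : S[X])) ((compRingHom (C x * X)) (C x)) 0 m
        = pows (X : S[X]) (C x) 1 m := by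
      unfold pows
      apply List.map_congr_left
      intro i _
      simp only [coe_compRingHom_apply, X_comp, C_comp]
      ring
    rw [h3, hcyc]
  have hcoef : ∀ n, n ≠ 0 → τ.coeff n = 0 := by
    intro n hn
    by_cases hnm : n < m
    · have h1 := congrArg (fun f => Polynomial.coeff f n) hcomp
      simp only [Polynomial.comp_C_mul_X_coeff] at h1
      have h2 : τ.coeff n * (x ^ n - 1) = 0 := by rw [mul_sub, h1]; ring
      rcases mul_eq_zero.mp h2 with h3 | h3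
      · exact h3
      · exact absurd (sub_eq_zero.mp h3) (hx.pow_ne_one_of_pos_of_lt hn hnm)
    · exact Polynomial.coeff_eq_zero_of_natDegree_lt (by omega)
  have hconst : τ = C (τ.coeff 0) := by
    ext n
    by_cases hn : n = 0
    · subst hn; simp
    · rw [hcoef n hn, Polynomial.coeff_C_ne_zero hn]
  have heval : ∀ a : S, (Gm (pows a x 0 m)).trace = τ.eval a := by
    intro a
    have h1 : τ.eval a = (evalRingHom a) τ := rfl
    rw [h1, hτ]
    have h2 : (evalRingHom a) (Gm (pows (X : S[X]) (C x) 0 m)).trace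
        = ((Gm (pows (X : S[X]) (C x) 0 m)).map (evalRingHom a)).trace := by
      simp [Matrix.trace_fin_two]
    rw [h2, ← Gm_map, pows_map]
    simp
  obtain ⟨m', rfl⟩ : ∃ m', m = m' + 1 := ⟨m - 1, by omega⟩
  have h0 := heval 0
  rw [Gm_zero_pows, hconst, Polynomial.eval_C] at h0
  rw [heval 1, hconst, Polynomial.eval_C, ← h0]
  simp [N, Matrix.trace_fin_two]

theorem det_eq_neg_one [IsDomain S] {x : S} {m : ℕ} (hx : IsPrimitiveRoot x m) (hm : 2 ≤ m) :
    (Gm (pows (1 : S) x 0 m)).det = -1 := by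
  rw [det_Gm_pows]
  rcases Nat.even_or_odd' m with ⟨k, rfl | rfl⟩
  · have hk : 0 < k := by omega
    have h1 : 2 * k * (2 * k - 1) / 2 = k * (2 * k - 1) := by
      rw [mul_assoc, Nat.mul_div_cancel_left _ (by norm_num)]
    have h2 : x ^ k = -1 := by
      have h3 : (x ^ k - 1) * (x ^ k + 1) = 0 := by
        have := hx.pow_eq_one
        rw [mul_comm 2 k, pow_mul] at this
        linear_combination this
      rcases mul_eq_zero.mp h3 with h4 | h4
      · exact absurd (sub_eq_zero.mp h4) (hx.pow_ne_one_of_pos_of_lt (by omega) (by omega))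
      · linear_combination h4
    rw [h1, pow_mul x, h2]
    have h5 : Odd (2 * k - 1) := ⟨k - 1, by omega⟩
    rw [h5.neg_one_pow, pow_mul]; simp
  · have h1 : (2 * k + 1) * (2 * k + 1 - 1) / 2 = (2 * k + 1) * k := by
      rw [Nat.add_sub_cancel, show (2 * k + 1) * (2 * k) = 2 * ((2 * k + 1) * k) by ring,
        Nat.mul_div_cancel_left _ (by norm_num)]
    rw [h1, pow_mul x, hx.pow_eq_one, one_pow, mul_one]
    exact (odd_two_mul_add_one k).neg_one_pow

/-- If `x^n = 1`, five blocks give a fifth power. -/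
theorem Gm_five (x : S) (n : ℕ) (hx : x ^ n = 1) :
    Gm (pows 1 x 0 (5 * n)) = Gm (pows 1 x 0 n) ^ 5 := by
  have h : ∀ j, pows 1 x (j * n) n = pows 1 x 0 n := by
    intro j
    apply pows_congr
    rw [mul_comm j n, pow_mul, hx]; simp
  have h' : ∀ k, Gm (pows 1 x 0 (k * n)) = Gm (pows 1 x 0 n) ^ k := by
    intro k
    induction k with
    | zero => simp
    | succ k ih => rw [Nat.succ_mul, pows_add, Gm_append, ih, Nat.zero_add, h, pow_succ]
  exact h' 5

end Ring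

/-! ### The Hermitian structure over `ℂ` -/

theorem conj_pows {x : ℂ} {m : ℕ} (hx : x ^ (m + 1) = 1) :
    (pows 1 x 1 m).map (starRingEnd ℂ) = (pows 1 x 1 m).reverse := by
  have hn : Complex.normSq x = 1 := by
    have h1 : ‖x‖ ^ (m + 1) = 1 := by rw [← norm_pow, hx, norm_one]
    have h2 : ‖x‖ = 1 := (pow_eq_one_iff_of_nonneg (norm_nonneg _) (by omega)).mp h1
    rw [Complex.normSq_eq_norm_sq, h2]; norm_num
  have hx0 : x ≠ 0 := by
    rintro rfl
    simp at hx
  have hc : starRingEnd ℂ x = x⁻¹ := by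
    rw [Complex.inv_def, hn]; simp
  apply List.ext_getElem
  · simp [pows]
  · intro i h1 h2
    have hi : i < m := by simpa [pows] using h1
    rw [List.getElem_reverse]
    simp only [pows, List.getElem_map, List.getElem_range, List.length_map, List.length_range,
      one_mul, map_pow, hc]
    rw [inv_pow]
    apply inv_eq_of_mul_eq_one_right
    rw [← pow_add, ← hx]
    congr 1
    omega

theorem hermitian {x : ℂ} {m : ℕ} (hx : x ^ (m + 1) = 1) :
    (Gm (pows 1 x 0 (m + 1))).map (starRingEnd ℂ) = (Gm (pows 1 x 0 (m + 1)))ᵀ := by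
  rw [← Gm_map, pows_succ']
  simp only [pow_zero, mul_one, List.map_cons, map_one, Nat.zero_add]
  rw [conj_pows hx, Gm_transpose_one]

theorem norm_lower_le {x : ℂ} {m : ℕ} (hx : IsPrimitiveRoot x m) (hm : 2 ≤ m) :
    ‖Gm (pows 1 x 0 m) 1 0‖ ^ 2 ≤ 5 / 4 := by
  obtain ⟨m', rfl⟩ : ∃ m', m = m' + 1 := ⟨m - 1, by omega⟩
  have hH := hermitian hx.pow_eq_one
  have htr := trace_eq_one hx hm
  have hdet := det_eq_neg_one hx hm
  set G := Gm (pows 1 x 0 (m' + 1))
  rw [Matrix.trace_fin_two] at htr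
  rw [Matrix.det_fin_two] at hdet
  have h00 : starRingEnd ℂ (G 0 0) = G 0 0 := congrFun (congrFun hH 0) 0
  have h10 : starRingEnd ℂ (G 1 0) = G 0 1 := congrFun (congrFun hH 1) 0
  obtain ⟨α, hα⟩ := Complex.conj_eq_iff_real.mp h00
  have h1 : ((‖G 1 0‖ ^ 2 : ℝ) : ℂ) = ((α * (1 - α) + 1 : ℝ) : ℂ) := by
    push_cast
    rw [← Complex.mul_conj', h10, ← hα]
    linear_combination (G 0 0) * htr - hdet
  have h2 : ‖G 1 0‖ ^ 2 = α * (1 - α) + 1 := by exact_mod_cast h1
  rw [h2]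
  nlinarith [sq_nonneg (α - 1 / 2)]

/-! ### The five-adic argument -/

theorem lower_zero_integer (n : ℕ) (hn : 0 < n) (K : Type) [Field K] [NumberField K]
    (z : NumberField.RingOfIntegers K) (hz : IsPrimitiveRoot z (5 * n)) :
    Gm (pows 1 z 0 (5 * n)) 1 0 = 0 := by
  set b := Gm (pows 1 z 0 (5 * n)) 1 0 with hb
  set ζ := z ^ n with hζ
  have hζ5 : ζ ^ 5 = 1 := by rw [hζ, ← pow_mul, mul_comm]; exact hz.pow_eq_one
  have hζ1 : ζ ≠ 1 := hz.pow_ne_one_of_pos_of_lt (by omega) (by omega)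
  have hsum : 1 + ζ + ζ ^ 2 + ζ ^ 3 + ζ ^ 4 = 0 := by
    have h1 : (ζ - 1) * (1 + ζ + ζ ^ 2 + ζ ^ 3 + ζ ^ 4) = 0 := by linear_combination hζ5
    exact (mul_eq_zero.mp h1).resolve_left (sub_ne_zero.mpr hζ1)
  have hm2 : 2 ≤ 5 * n := by omega
  -- the cube of `b` is divisible by `1 - ζ`
  have hdvd : (1 - ζ) ∣ b ^ 3 := by
    rw [← Ideal.mem_span_singleton]
    rw [← Ideal.Quotient.eq_zero_iff_mem]
    set π := Ideal.Quotient.mk (Ideal.span {1 - ζ}) with hπ
    have hπζ : π ζ = 1 := by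
      have h1 : π (1 - ζ) = 0 := by
        rw [hπ, Ideal.Quotient.eq_zero_iff_mem]; exact Ideal.mem_span_singleton_self _
      rw [map_sub, map_one, sub_eq_zero] at h1
      exact h1.symm
    have h5 : (5 : NumberField.RingOfIntegers K ⧸ Ideal.span {1 - ζ}) = 0 := by
      have h1 := congrArg π hsum
      simp only [map_add, map_one, map_pow, hπζ, map_zero] at h1
      rw [← h1]; norm_num
    have hG : (Gm (pows 1 z 0 (5 * n))).map π = Gm (pows 1 (π z) 0 n) ^ 5 := by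
      rw [← Gm_map, pows_map, map_one]
      apply Gm_five
      rw [← map_pow]; exact hπζ
    have htr : (Gm (pows 1 (π z) 0 n) ^ 5).trace = 1 := by
      rw [← hG]
      have h1 := congrArg π (trace_eq_one hz hm2)
      rw [map_one] at h1
      rw [← h1]
      simp [Matrix.trace_fin_two]
    have hdet : (Gm (pows 1 (π z) 0 n) ^ 5).det = -1 := by
      rw [← hG]
      have h1 := congrArg π (det_eq_neg_one hz hm2)
      rw [map_neg, map_one] at h1
      rw [← h1]
      simp [Matrix.det_fin_two]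
    have h := pow_five_lower _ h5 htr hdet
    rw [← hG] at h
    rw [map_pow]
    exact h
  obtain ⟨c, hc⟩ := hdvd
  -- hence `b ^ 12` is divisible by `5`
  obtain ⟨W, hW⟩ : ∃ W, b ^ 12 = 5 * W := by
    refine ⟨c ^ 4 * (1 + ζ ^ 2 + ζ ^ 4) * (1 + ζ ^ 3) * (1 + ζ ^ 4 + ζ ^ 8 + ζ ^ 12), ?_⟩
    have e5 : (5 : NumberField.RingOfIntegers K) = (1 - ζ) * (1 - ζ ^ 2) * (1 - ζ ^ 3) * (1 - ζ ^ 4) := by
      have h4 : ζ ^ 4 = -(1 + ζ + ζ ^ 2 + ζ ^ 3) := by linear_combination hsum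
      have h1 : (1 - ζ) * (1 - ζ ^ 4) = 2 - ζ - ζ ^ 4 := by linear_combination hζ5
      have h2 : (1 - ζ ^ 2) * (1 - ζ ^ 3) = 2 - ζ ^ 2 - ζ ^ 3 := by linear_combination hζ5
      have h3 : (2 - ζ - ζ ^ 4) * (2 - ζ ^ 2 - ζ ^ 3)
          = 4 - 2 * (ζ + ζ ^ 2 + ζ ^ 3 + ζ ^ 4) + (ζ ^ 3 + ζ ^ 4 + ζ ^ 6 + ζ ^ 7) := by ring
      have h6 : ζ ^ 6 = ζ := by rw [show ζ ^ 6 = ζ ^ 5 * ζ by ring, hζ5, one_mul]
      have h7 : ζ ^ 7 = ζ ^ 2 := by rw [show ζ ^ 7 = ζ ^ 5 * ζ ^ 2 by ring, hζ5, one_mul]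
      have h8 : (1 - ζ) * (1 - ζ ^ 2) * (1 - ζ ^ 3) * (1 - ζ ^ 4)
          = (1 - ζ) * (1 - ζ ^ 4) * ((1 - ζ ^ 2) * (1 - ζ ^ 3)) := by ring
      rw [h8, h1, h2, h3, h6, h7]
      linear_combination hsum
    have e2 : 1 - ζ = (1 - ζ ^ 2) * (1 + ζ ^ 2 + ζ ^ 4) := by linear_combination ζ * hζ5
    have e3 : 1 - ζ = (1 - ζ ^ 3) * (1 + ζ ^ 3) := by linear_combination ζ * hζ5
    have e4 : 1 - ζ = (1 - ζ ^ 4) * (1 + ζ ^ 4 + ζ ^ 8 + ζ ^ 12) := by
      linear_combination (ζ ^ 11 + ζ ^ 6 + ζ) * hζ5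
    calc b ^ 12 = (b ^ 3) * (b ^ 3) * (b ^ 3) * (b ^ 3) := by ring
      _ = ((1 - ζ) * c) * ((1 - ζ) * c) * ((1 - ζ) * c) * ((1 - ζ) * c) := by rw [hc]
      _ = ((1 - ζ) * c) * (((1 - ζ ^ 2) * (1 + ζ ^ 2 + ζ ^ 4)) * c)
          * (((1 - ζ ^ 3) * (1 + ζ ^ 3)) * c)
          * (((1 - ζ ^ 4) * (1 + ζ ^ 4 + ζ ^ 8 + ζ ^ 12)) * c) := by
            rw [← e2, ← e3, ← e4]
      _ = 5 * (c ^ 4 * (1 + ζ ^ 2 + ζ ^ 4) * (1 + ζ ^ 3) * (1 + ζ ^ 4 + ζ ^ 8 + ζ ^ 12)) := by
            rw [e5]; ring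
  by_cases hW0 : W = 0
  · rw [hW0, mul_zero] at hW
    exact pow_eq_zero_iff (by norm_num) |>.mp hW
  · exfalso
    obtain ⟨σ, hσ⟩ := NumberField.exists_conjugate_one_le_norm hW0
    set ρ : NumberField.RingOfIntegers K →+* ℂ :=
      σ.comp (algebraMap (NumberField.RingOfIntegers K) K) with hρ
    have hinj : Function.Injective ρ :=
      σ.injective.comp (FaithfulSMul.algebraMap_injective (NumberField.RingOfIntegers K) K)
    have hprim : IsPrimitiveRoot (ρ z) (5 * n) := hz.map_of_injective hinj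
    have hb' : Gm (pows 1 (ρ z) 0 (5 * n)) 1 0 = ρ b := by
      have h1 : (Gm (pows 1 z 0 (5 * n))).map ρ = Gm (pows 1 (ρ z) 0 (5 * n)) := by
        rw [← Gm_map, pows_map, map_one]
      rw [← h1]; rfl
    have hbound := norm_lower_le hprim hm2
    rw [hb'] at hbound
    have h1 := congrArg ρ hW
    rw [map_pow, map_mul] at h1
    have h5 : ρ 5 = 5 := map_ofNat ρ 5
    rw [h5] at h1
    have h2 : ‖ρ b‖ ^ 12 = 5 * ‖ρ W‖ := by
      rw [← norm_pow, h1, norm_mul]; norm_num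
    have h3 : ‖ρ b‖ ^ 12 ≤ (5 / 4) ^ 6 := by
      calc ‖ρ b‖ ^ 12 = (‖ρ b‖ ^ 2) ^ 6 := by ring
        _ ≤ (5 / 4) ^ 6 := pow_le_pow_left₀ (by positivity) hbound 6
    have h4 : (1 : ℝ) ≤ ‖ρ W‖ := hσ
    rw [h2] at h3
    norm_num at h3
    linarith

theorem lower_zero (n : ℕ) (hn : 0 < n) (y : ℂ) (hy : IsPrimitiveRoot y (5 * n)) :
    Gm (pows 1 y 0 (5 * n)) 1 0 = 0 := by
  haveI : NeZero (5 * n) := ⟨by omega⟩
  haveI : NeZero ((5 * n : ℕ) : ℚ) := ⟨by
    have : (5 * n : ℕ) ≠ 0 := by omega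
    exact_mod_cast this⟩
  haveI : IsCyclotomicExtension {5 * n} ℚ (CyclotomicField (5 * n) ℚ) :=
    CyclotomicField.isCyclotomicExtension (5 * n) ℚ
  have hζ := IsCyclotomicExtension.zeta_spec (5 * n) ℚ (CyclotomicField (5 * n) ℚ)
  have hirr := Polynomial.cyclotomic.irreducible_rat (n := 5 * n) (by omega)
  set e := hζ.embeddingsEquivPrimitiveRoots ℂ hirr
  set φ := e.symm ⟨y, (mem_primitiveRoots (by omega)).mpr hy⟩ with hφ
  have hφy : φ (IsCyclotomicExtension.zeta (5 * n) ℚ (CyclotomicField (5 * n) ℚ)) = y := by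
    rw [← hζ.embeddingsEquivPrimitiveRoots_apply_coe ℂ hirr φ]
    simp [hφ, e]
  have hz := hζ.toInteger_isPrimitiveRoot
  have h := lower_zero_integer n hn (CyclotomicField (5 * n) ℚ) hζ.toInteger hz
  set ρ : NumberField.RingOfIntegers (CyclotomicField (5 * n) ℚ) →+* ℂ :=
    (φ : CyclotomicField (5 * n) ℚ →+* ℂ).comp
      (algebraMap (NumberField.RingOfIntegers (CyclotomicField (5 * n) ℚ)) (CyclotomicField (5 * n) ℚ))
    with hρ
  have hρz : ρ hζ.toInteger = y := hφy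
  have h1 : (Gm (pows 1 hζ.toInteger 0 (5 * n))).map ρ = Gm (pows 1 y 0 (5 * n)) := by
    rw [← Gm_map, pows_map, map_one, hρz]
  rw [← h1, Matrix.map_apply, h, map_zero]

/-! ### The continued fraction -/

/-- Two consecutive vectors `(P_n, Q_n)`, `(P_{n-1}, Q_{n-1})` as columns. -/
def V (a x : ℂ) (n : ℕ) : Matrix (Fin 2) (Fin 2) ℂ :=
  !![P a x (n + 1), P a x n; Q a x (n + 1), Q a x n]

theorem V_eq (a x : ℂ) (n : ℕ) : V a x n = !![1, 0; 1, 1] * Gm (pows a x 0 (n + 1)) := by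
  induction n with
  | zero =>
    ext i j
    fin_cases i <;> fin_cases j <;> simp [V, P, Q, pows_succ, N, Matrix.mul_apply, Fin.sum_univ_two]
  | succ n ih =>
    rw [pows_succ, Gm_append, ← Matrix.mul_assoc, ← ih, Gm_cons, Gm_nil, mul_one]
    ext i j
    fin_cases i <;> fin_cases j <;>
      simp [V, P, Q, N, Matrix.mul_apply, Fin.sum_univ_two] <;> ring

theorem A_mul_W (a x : ℂ) (m : ℕ) (hm : 2 ≤ m) :
    A a x m * !![1, 0; 1, 1] = V a x (m - 1) := by
  obtain ⟨m', rfl⟩ : ∃ m', m = m' + 2 := ⟨m - 2, by omega⟩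
  have e1 : m' + 2 - 1 = m' + 1 := by omega
  have e2 : m' + 2 - 2 = m' := by omega
  ext i j
  fin_cases i <;> fin_cases j <;>
    simp [V, A, P, Q, Matrix.mul_apply, Fin.sum_univ_two, e1, e2] <;> ring

theorem A_mul_V (a x : ℂ) (m : ℕ) (hm : 2 ≤ m) (hx : x ^ m = 1) (r : ℕ) :
    A a x m * V a x r = V a x r * Gm (pows a x (r + 1) m) := by
  have h1 : pows a x m (r + 1) = pows a x 0 (r + 1) := pows_congr _ _ _ _ _ _ (by rw [hx, pow_zero])
  have h2 : V a x (m - 1) = !![1, 0; 1, 1] * Gm (pows a x 0 m) := by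
    rw [V_eq]; congr 3; omega
  calc A a x m * V a x r
      = (A a x m * !![1, 0; 1, 1]) * Gm (pows a x 0 (r + 1)) := by rw [V_eq, Matrix.mul_assoc]
    _ = !![1, 0; 1, 1] * (Gm (pows a x 0 m) * Gm (pows a x m (r + 1))) := by
        rw [A_mul_W a x m hm, h2, h1, Matrix.mul_assoc]
    _ = !![1, 0; 1, 1] * Gm (pows a x 0 ((r + 1) + m)) := by
        rw [← Gm_append]
        have := pows_add a x 0 m (r + 1)
        rw [Nat.zero_add] at this
        rw [← this, Nat.add_comm m]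
    _ = V a x r * Gm (pows a x (r + 1) m) := by
        rw [pows_add, Gm_append, Nat.zero_add, V_eq, Matrix.mul_assoc]

theorem det_V_ne_zero (a x : ℂ) (ha : a ≠ 0) (hx : x ≠ 0) (n : ℕ) : (V a x n).det ≠ 0 := by
  have h : ∀ k, (Gm (pows a x 0 k)).det ≠ 0 := by
    intro k
    induction k with
    | zero => simp
    | succ k ih =>
      rw [pows_succ, Gm_append, Matrix.det_mul, Gm_cons, Gm_nil, mul_one, N_det]
      exact mul_ne_zero ih (neg_ne_zero.mpr (mul_ne_zero ha (pow_ne_zero _ hx)))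
  rw [V_eq, Matrix.det_mul]
  refine mul_ne_zero ?_ (h _)
  simp

theorem golden (μ : ℂ) (h : μ * (1 - μ) = -1) :
    μ = (1 + Real.sqrt 5) / 2 ∨ μ = (1 - Real.sqrt 5) / 2 := by
  have h5 : ((Real.sqrt 5 : ℝ) : ℂ) ^ 2 = 5 := by
    rw [← Complex.ofReal_pow, Real.sq_sqrt (by norm_num)]; norm_num
  have h1 : (2 * μ - 1 - Real.sqrt 5) * (2 * μ - 1 + Real.sqrt 5) = 0 := by
    linear_combination (-4) * h - h5
  rcases mul_eq_zero.mp h1 with h2 | h2
  · left; linear_combination h2 / 2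
  · right; linear_combination h2 / 2

theorem main (a x : ℂ) (n : ℕ) (hn : 0 < n) (hx : IsPrimitiveRoot x (5 * n)) (r : ℕ)
    (hr : a * x ^ (r + 1) = 1 ∨ a * x ^ (r + 2) = 1) :
    ∃ μ : ℂ, (μ = (1 + Real.sqrt 5) / 2 ∨ μ = (1 - Real.sqrt 5) / 2) ∧
      Module.End.HasEigenvector (Matrix.toLin' (A a x (5 * n))) μ
        ![P a x (r + 1), Q a x (r + 1)] := by
  have hm2 : 2 ≤ 5 * n := by omega
  have hx0 : x ≠ 0 := hx.ne_zero (by omega)
  have ha0 : a ≠ 0 := by
    rintro rfl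
    simp at hr
  have hlow := lower_zero n hn x hx
  have htr := trace_eq_one hx hm2
  have hdet := det_eq_neg_one hx hm2
  obtain ⟨m', hm'⟩ : ∃ m', 5 * n = m' + 1 := ⟨5 * n - 1, by omega⟩
  have hup : Gm (pows 1 x 0 (5 * n)) 0 1 = 0 := by
    have hH := hermitian (x := x) (m := m') (by rw [← hm']; exact hx.pow_eq_one)
    have h1 : starRingEnd ℂ (Gm (pows 1 x 0 (m' + 1)) 1 0) = Gm (pows 1 x 0 (m' + 1)) 0 1 :=
      congrFun (congrFun hH 1) 0
    rw [hm'] at hlow ⊢
    rw [← h1, hlow, map_zero]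
  rw [Matrix.trace_fin_two] at htr
  rw [Matrix.det_fin_two, hlow, hup] at hdet
  -- a common conclusion
  have hconc : ∀ G' : Matrix (Fin 2) (Fin 2) ℂ,
      Gm (pows a x (r + 1) (5 * n)) = G' → G' 1 0 = 0 → G' 0 0 * (1 - G' 0 0) = -1 →
      ∃ μ : ℂ, (μ = (1 + Real.sqrt 5) / 2 ∨ μ = (1 - Real.sqrt 5) / 2) ∧
      Module.End.HasEigenvector (Matrix.toLin' (A a x (5 * n))) μ
        ![P a x (r + 1), Q a x (r + 1)] := by
    intro G' hG' h10 h00
    refine ⟨G' 0 0, golden _ h00, ?_⟩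
    have hAV := A_mul_V a x (5 * n) hm2 hx.pow_eq_one r
    rw [hG'] at hAV
    rw [Module.End.hasEigenvector_iff, Module.End.mem_eigenspace_iff]
    refine ⟨?_, ?_⟩
    · rw [Matrix.toLin'_apply]
      ext i
      have h1 := congrFun (congrFun hAV i) 0
      rw [Matrix.mul_apply, Matrix.mul_apply, Fin.sum_univ_two, Fin.sum_univ_two, h10, mul_zero,
        add_zero] at h1
      fin_cases i
      · simp only [V, Matrix.of_apply, Matrix.cons_val', Matrix.cons_val_zero, Matrix.cons_val_one,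
          Matrix.cons_val_fin_one, Fin.zero_eta] at h1
        simp only [Matrix.mulVec, dotProduct, Fin.sum_univ_two, Matrix.cons_val_zero,
          Matrix.cons_val_one, Matrix.cons_val_fin_one, Pi.smul_apply, smul_eq_mul, Fin.zero_eta]
        rw [h1]; ring
      · simp only [V, Matrix.of_apply, Matrix.cons_val', Matrix.cons_val_zero, Matrix.cons_val_one,
          Matrix.cons_val_fin_one, Fin.mk_one] at h1
        simp only [Matrix.mulVec, dotProduct, Fin.sum_univ_two, Matrix.cons_val_zero,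
          Matrix.cons_val_one, Matrix.cons_val_fin_one, Pi.smul_apply, smul_eq_mul, Fin.mk_one]
        rw [h1]; ring
    · intro h0
      apply det_V_ne_zero a x ha0 hx0 r
      have e0 : P a x (r + 1) = 0 := congrFun h0 0
      have e1 : Q a x (r + 1) = 0 := congrFun h0 1
      rw [Matrix.det_fin_two]
      simp [V, e0, e1]
  rcases hr with hr | hr
  · apply hconc (Gm (pows 1 x 0 (5 * n)))
    · rw [pows_congr a 1 x (r + 1) 0 (5 * n) (by rw [hr]; simp)]
    · exact hlow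
    · linear_combination hdet - (Gm (pows 1 x 0 (5 * n)) 0 0) * htr
  · have hc : a * x ^ (r + 1) = 1 * x ^ m' := by
      have h1 : x * (a * x ^ (r + 1)) = x * (1 * x ^ m') := by
        have h2 : x ^ (m' + 1) = 1 := by rw [← hm']; exact hx.pow_eq_one
        linear_combination hr - h2
      exact mul_left_cancel₀ hx0 h1
    have e1 : pows a x (r + 1) (5 * n) = (1 * x ^ m') :: pows 1 x 0 m' := by
      rw [hm', pows_succ', hc, pows_congr a 1 x (r + 1 + 1) 0 m' (by rw [pow_zero, mul_one]; exact hr)]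
    have e2 : pows 1 x 0 (5 * n) = pows 1 x 0 m' ++ [1 * x ^ m'] := by
      rw [hm', pows_succ, Nat.zero_add]
    rw [e2, Gm_append, Gm_cons, Gm_nil, mul_one] at hlow hup hdet htr
    apply hconc (N (1 * x ^ m') * Gm (pows 1 x 0 m'))
    · rw [e1, Gm_cons]
    · rw [Matrix.mul_apply, Fin.sum_univ_two] at hup ⊢
      simp [N] at hup ⊢
      right; exact hup
    · rw [Matrix.mul_apply, Fin.sum_univ_two] at hup hdet htr ⊢
      rw [Matrix.mul_apply, Fin.sum_univ_two] at htr hdet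
      simp [N] at hup htr hdet ⊢
      rw [hup] at htr hdet ⊢
      linear_combination hdet - (Gm (pows 1 x 0 m') 1 0) * htr

/-- **MP_b3b2bb_nt, Q1 (proved).** -/
theorem result (k m : ℕ) (j l l' s₀ : ℤ) (hk : 1 ≤ k) (hm : 3 ≤ m)
    (hjk : Int.gcd j k = 1) (hlm : Int.gcd l m = 1) (h5 : 5 ∣ m) (hkm : k ∣ m)
    (hl' : l * l' ≡ 1 [ZMOD m]) (hs₀ : s₀ ≡ -((m / k : ℕ) : ℤ) * j * l' [ZMOD m])
    (r : ℕ) (hr : (r : ℤ) ≡ s₀ - 1 [ZMOD m] ∨ (r : ℤ) ≡ s₀ - 2 [ZMOD m]) :
    ∃ μ : ℂ, (μ = (1 + Real.sqrt 5) / 2 ∨ μ = (1 - Real.sqrt 5) / 2) ∧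
      Module.End.HasEigenvector
        (Matrix.toLin' (A (Complex.exp (2 * Real.pi * Complex.I * j / k))
          (Complex.exp (2 * Real.pi * Complex.I * l / m)) m)) μ
        ![P (Complex.exp (2 * Real.pi * Complex.I * j / k))
            (Complex.exp (2 * Real.pi * Complex.I * l / m)) (r + 1),
          Q (Complex.exp (2 * Real.pi * Complex.I * j / k))
            (Complex.exp (2 * Real.pi * Complex.I * l / m)) (r + 1)] := by
  obtain ⟨n, rfl⟩ := h5
  obtain ⟨d, hd⟩ := hkm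
  have hk0 : (k : ℂ) ≠ 0 := by
    have : k ≠ 0 := by omega
    exact_mod_cast this
  have hm0 : ((5 * n : ℕ) : ℂ) ≠ 0 := by
    have : 5 * n ≠ 0 := by omega
    exact_mod_cast this
  have hdiv : (5 * n) / k = d := by rw [hd]; exact Nat.mul_div_cancel_left _ (by omega)
  rw [hdiv] at hs₀
  have hω := Complex.isPrimitiveRoot_exp (5 * n) (by omega)
  set ω := Complex.exp (2 * Real.pi * Complex.I / ((5 * n : ℕ) : ℂ)) with hωdef
  have hω0 : ω ≠ 0 := Complex.exp_ne_zero _
  have hxω : Complex.exp (2 * Real.pi * Complex.I * l / ((5 * n : ℕ) : ℂ)) = ω ^ l := by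
    rw [hωdef, ← Complex.exp_int_mul]
    congr 1; ring
  have haω : Complex.exp (2 * Real.pi * Complex.I * j / k) = ω ^ ((d : ℤ) * j) := by
    rw [hωdef, ← Complex.exp_int_mul]
    congr 1
    rw [hd]
    push_cast
    have hd0 : (d : ℂ) ≠ 0 := by
      rintro h
      have : d = 0 := by exact_mod_cast h
      rw [this] at hd; omega
    field_simp
  rw [hxω, haω]
  have hx : IsPrimitiveRoot (ω ^ l) (5 * n) := hω.zpow_of_gcd_eq_one l (by rw [hlm])
  have hgen : ∀ t : ℕ, (t : ℤ) ≡ s₀ [ZMOD ((5 * n : ℕ) : ℤ)] →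
      ω ^ ((d : ℤ) * j) * (ω ^ l) ^ t = 1 := by
    intro t ht
    rw [← _root_.zpow_natCast, ← _root_.zpow_mul, ← zpow_add₀ hω0, hω.zpow_eq_one_iff_dvd]
    have h1 : (d : ℤ) * j + l * t ≡ (d : ℤ) * j + l * (-(d : ℤ) * j * l') [ZMOD ((5 * n : ℕ) : ℤ)] :=
      Int.ModEq.add_left _ (Int.ModEq.mul_left _ (ht.trans hs₀))
    have h2 : (d : ℤ) * j + l * (-(d : ℤ) * j * l') = (d : ℤ) * j * (1 - l * l') := by ring
    have h3 : (d : ℤ) * j * (1 - l * l') ≡ (d : ℤ) * j * (1 - 1) [ZMOD ((5 * n : ℕ) : ℤ)] :=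
      Int.ModEq.mul_left _ (Int.ModEq.sub_left _ hl')
    rw [h2] at h1
    have h4 := h1.trans h3
    rw [sub_self, mul_zero] at h4
    exact (Int.modEq_zero_iff_dvd).mp h4
  apply main _ _ n (by omega) hx r
  rcases hr with hr | hr
  · left
    apply hgen
    have := hr.add_right 1
    simpa using this
  · right
    apply hgen
    have := hr.add_right 2
    simpa using this

end Pool.Agent.Results.MP_b3b2bb_nt.EigenvectorApproximants
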